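import Pool.Agent.U94.NA.Sizes

/-!
# The average finite `π`-adic complexity is `n / 2 + O(1)`

In both cases of the problem the average over all blocks of `n` digits of the least size of a
fraction whose `π`-adic expansion begins with the block is `n / 2 + O(1)`.
-/

set_option autoImplicit false

namespace Pool.Agent.Results.MP_cc6759_lc.HalfLength

open Finset Module Pool.Agent.U94.NA

/-- Case (i) is the first part, case (ii) the second one. In both cases the least size of a
fraction beginning with a given block is attained, and the average is `n / 2 + O(1)`. -/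
theorem result :
    (∀ N : ℕ, 2 ≤ N → ∀ (R : Type) [CommRing R] [IsDomain R] (π : R) (b : Basis (Fin 2) ℤ R),
      (∀ i, b i = π ^ (i : ℕ)) → π ^ 2 = -(N : R) →
      (∀ (n : ℕ) (a : Fin n → Fin N),
        IsLeast (sizes π (sizeOne N b) a) (finComplexity π (sizeOne N b) a)) ∧
      ∃ C : ℝ, ∀ n : ℕ, |average π (sizeOne N b) N n - n / 2| ≤ C) ∧
    (∀ N d : ℕ, 2 ≤ N → 1 ≤ d → ∀ (R : Type) [CommRing R] [IsDomain R] (π : R)
      (b : Basis (Fin d) ℤ R), (∀ i, b i = π ^ (i : ℕ)) → π ^ d = (N : R) →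
      (∀ (n : ℕ) (a : Fin n → Fin N),
        IsLeast (sizes π (sizeTwo N b) a) (finComplexity π (sizeTwo N b) a)) ∧
      ∃ C : ℝ, ∀ n : ℕ, |average π (sizeTwo N b) N n - n / 2| ≤ C) := by
  refine ⟨?_, ?_⟩
  · intro N hN R _ _ π b hb hπ
    have hN' : (2 : ℝ) ≤ N := by exact_mod_cast hN
    have hlog : 0 < Real.log N := Real.log_pos (by linarith)
    obtain ⟨h, hdvd⟩ := digitSystem (e := 1) hN b hb (ε := -1) (by norm_num) (by
      rw [hπ]
      push_cast
      ring)
    obtain ⟨M, -, hM⟩ := exists_mulBound b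
    have hκ : (0 : ℝ) < 2 / Real.log N := by positivity
    obtain ⟨C, hC⟩ : ∃ C : ℝ, ∀ n : ℕ, |average π (sizeOne N b) N n -
        2 / Real.log N * (n * Real.log N / (2 * (2 : ℕ)))| ≤ C :=
      ⟨_, fun n => average_bounds h hN hdvd hM (by norm_num) hκ (sizeOne_bounds hN b) n⟩
    refine ⟨fun n a => isLeast_finComplexity h hκ (sizeOne_bounds hN b) a, ⟨C, fun n => ?_⟩⟩
    have h1 := hC n
    have h2 : 2 / Real.log N * (n * Real.log N / (2 * (2 : ℕ))) = (n : ℝ) / 2 := by
      push_cast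
      field_simp
    rw [h2] at h1
    exact h1
  · intro N d hN hd R _ _ π b hb hπ
    have hN' : (2 : ℝ) ≤ N := by exact_mod_cast hN
    have hlog : 0 < Real.log N := Real.log_pos (by linarith)
    obtain ⟨e, rfl⟩ : ∃ e, d = e + 1 := ⟨d - 1, by omega⟩
    obtain ⟨h, hdvd⟩ := digitSystem (e := e) hN b hb (ε := 1) (by norm_num) (by
      rw [hπ]
      push_cast
      ring)
    obtain ⟨M, -, hM⟩ := exists_mulBound b
    have hκ : (0 : ℝ) < ((e + 1 : ℕ) : ℝ) / Real.log N := by positivity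
    obtain ⟨C, hC⟩ : ∃ C : ℝ, ∀ n : ℕ, |average π (sizeTwo N b) N n - ((e + 1 : ℕ) : ℝ) /
        Real.log N * (n * Real.log N / (2 * ((e + 1 : ℕ) : ℝ)))| ≤ C :=
      ⟨_, fun n => average_bounds h hN hdvd hM hd hκ (sizeTwo_bounds hN hd b) n⟩
    refine ⟨fun n a => isLeast_finComplexity h hκ (sizeTwo_bounds hN hd b) a, ⟨C, fun n => ?_⟩⟩
    have h1 := hC n
    have h2 : ((e + 1 : ℕ) : ℝ) / Real.log N * (n * Real.log N / (2 * ((e + 1 : ℕ) : ℝ))) =
        (n : ℝ) / 2 := by
      have : ((e + 1 : ℕ) : ℝ) ≠ 0 := by positivity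
      field_simp
    rw [h2] at h1
    exact h1

end Pool.Agent.Results.MP_cc6759_lc.HalfLength
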